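import Pool.Agent.H5.BHG.Stmts

/-!
# Row LSC of the board `bhg`: completeness of `lvs`
-/

set_option autoImplicit false

namespace Pool.BHG

open Filter TMLib Pool.PG Pool.DPG

theorem lsc_vm (g : Game) (q : Bool) (v : ℕ) :
    v ∈ fs g (vm g q) ↔ v < g.length ∧ own g v = q := by
  have h := (fsb_thm.1 g (fun v => own g v == q)).2
  unfold vm
  rw [h, Finset.mem_filter, Finset.mem_range]
  simp

theorem lsc_c0 (g : Game) (j q : Bool) : (j, vm g q) ∈ c0 g := by
  unfold c0
  cases j <;> cases q <;> simp

theorem lsc_ne (g : Game) (q : Bool) (v : ℕ) (h : ¬ own g v = q) : own g v = !q := by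
  cases h1 : own g v <;> cases q <;> simp_all

theorem lsc_thm (h1 : LVGStmt) (h2 : CDCStmt) (h3 : YSBStmt) (h4 : ONSStmt) (h5 : LSNStmt) :
    LSCStmt := by
  intro s
  induction s with
  | zero =>
    intro g X q hg hX hc
    have he : fo g X q = ∅ := Finset.card_eq_zero.1 (Nat.le_zero.1 hc)
    refine h4.2 g X (!q) hg hX.1 ?_
    intro v hv
    apply lsc_ne
    intro ho
    have : v ∈ fo g X q := by
      unfold fo
      rw [Finset.mem_filter]
      exact ⟨hv, ho⟩
    rw [he] at this
    exact absurd this (Finset.notMem_empty v)
  | succ s ih =>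
    intro g X q hg hX hc
    have key := h1 one c0 (lvs s) g
      (fun F => ∃ q : Bool, (F.filter fun v => own g v = q).card ≤ s + 1) hg (h4.1 g) (h5 s g)
      (by
        rintro F F' hF ⟨q', hq'⟩
        exact ⟨q', le_trans (Finset.card_le_card (Finset.filter_subset_filter _ hF)) hq'⟩)
      (by
        rintro Y B' j hY ⟨q0, hq0⟩ hfd hsub hBY hBne hD hC
        -- `B'` has a vertex of `q0`
        have hex : ∃ v ∈ fs g B', own g v = q0 := by
          by_contra hcon
          push Not at hcon
          obtain ⟨hs1, hs2, hs3, -⟩ := h3 g Y (j, vm g (!q0)) hY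
          refine h2 one c0 g Y (j, vm g (!q0)) (fs g B') (h4.1 g) hY (lsc_c0 g j (!q0)) ?_ hBne hD
            ?_ hfd
          · refine h4.2 g _ (!q0) hg hs1.1 ?_
            intro v hv
            exact ((lsc_vm g (!q0) v).1 (hs3 hv)).2
          · intro v hv
            refine (lsc_vm g (!q0) v).2 ⟨?_, lsc_ne g q0 v (hcon v hv)⟩
            have := hBY hv
            unfold fs at this
            rw [Finset.mem_filter, Finset.mem_range] at this
            exact this.1
        obtain ⟨v, hvB, hvo⟩ := hex
        refine ih g (dif g Y B') q0 hg hsub ?_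
        have hlt : (fo g (dif g Y B') q0).card < (fo g Y q0).card := by
          apply Finset.card_lt_card
          rw [Finset.ssubset_iff_of_subset]
          · refine ⟨v, ?_, ?_⟩
            · unfold fo
              rw [Finset.mem_filter]
              exact ⟨hBY hvB, hvo⟩
            · unfold fo
              rw [Finset.mem_filter, fsb_thm.2.1 g Y B', Finset.mem_sdiff]
              exact fun h => h.1.2 hvB
          · intro w hw
            unfold fo at hw ⊢
            rw [Finset.mem_filter, fsb_thm.2.1 g Y B', Finset.mem_sdiff] at hw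
            rw [Finset.mem_filter]
            exact ⟨hw.1.1, hw.2⟩
        have hq0' : (fo g Y q0).card ≤ s + 1 := hq0
        omega)
      (g.length + 1) X hX ⟨q, hc⟩ (by
        have e1 := (fsb_thm.2.2.1 g X hX.1).1
        rw [e1]
        have e2 : (fs g X).card ≤ (Finset.range g.length).card := by
          apply Finset.card_le_card
          unfold fs
          exact Finset.filter_subset _ _
        rw [Finset.card_range] at e2
        omega)
    exact key

end Pool.BHG
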