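import Pool.Agent.H5.BHG.Stmts5

/-!
# The condition for the compressed game
-/

set_option autoImplicit false

namespace Pool.BHG

open Pool.PG Pool.DPG

theorem mx3_thm : MX3Stmt := by
  intro c g hg hM v hv w hw ho hmt
  rw [CMWx.len_cmp] at hv hw
  rw [CMWx.own_cmp, CMWx.own_cmp] at ho
  have hmt' : ¬ Mt3 g v w := by
    unfold Mt3 at hmt ⊢
    rw [CMWx.suc_cmp hg, CMWx.suc_cmp hg] at hmt
    exact hmt
  have h := hM v hv w hw ho hmt'
  rw [CMWx.len_cmp, CMWx.suc_cmp hg, CMWx.suc_cmp hg]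
  exact h

end Pool.BHG
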