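import Pool.Agent.H5.BHG.Stmts4

/-!
# Games in which every vertex has more than `(n - t) / 2` successors
-/

set_option autoImplicit false

namespace Pool.BHG

open Pool.PG Pool.DPG

theorem hl2_thm : HL2Stmt := by
  intro t g ht hg h v hv D B hD hB hDt hBt
  obtain ⟨w, hw⟩ := Finset.card_pos.1 (by omega : 0 < B.card)
  obtain ⟨hwn, -, hvw⟩ := hB w hw
  by_cases hDw : ∃ d ∈ D, d ∈ suc g w
  · obtain ⟨d, hd, hdw⟩ := hDw
    exact ⟨d, hd, w, hw, Or.inr (Or.inl hdw)⟩
  · exfalso
    push Not at hDw
    have hsub : ∀ x < g.length, (suc g x).toFinset ⊆ Finset.range g.length := fun x hx y hy =>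
      Finset.mem_range.2 ((hg x hx).2 y (List.mem_toFinset.1 hy))
    have hdis : Disjoint (suc g v).toFinset (suc g w).toFinset := by
      rw [Finset.disjoint_left]
      intro u hu hu'
      exact hvw (Or.inr (Or.inr ⟨u, List.mem_toFinset.1 hu, List.mem_toFinset.1 hu'⟩))
    have hdis2 : Disjoint ((suc g v).toFinset ∪ (suc g w).toFinset) D := by
      rw [Finset.disjoint_left]
      intro u hu hu'
      rcases Finset.mem_union.1 hu with h1 | h1
      · exact (hD u hu').2.2.2 (List.mem_toFinset.1 h1)
      · exact hDw u hu' (List.mem_toFinset.1 h1)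
    have h1 : (((suc g v).toFinset ∪ (suc g w).toFinset) ∪ D).card ≤ g.length := by
      calc _ ≤ (Finset.range g.length).card :=
            Finset.card_le_card (Finset.union_subset
              (Finset.union_subset (hsub v hv) (hsub w hwn))
              (fun d hd => Finset.mem_range.2 (hD d hd).1))
        _ = g.length := Finset.card_range _
    rw [Finset.card_union_of_disjoint hdis2, Finset.card_union_of_disjoint hdis] at h1
    have h2 := h v hv
    have h3 := h w hwn
    omega

end Pool.BHG
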