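import Pool.Agent.H5.BHG.Stmts3

/-!
# Row PDP of the board `bhg`: padding in polynomial time
-/

set_option autoImplicit false

namespace Pool.BHG

open Filter TMLib Pool.PG

theorem pdp_len : PTime (fun g : Game => g.length) := PTime.length PTime.id

theorem pdp_mul (c : ℕ) : PTime (fun g : Game => c * g.length) := PTime.mul (PTime.const c) pdp_len

theorem pdp_range (c : ℕ) : PTime (fun g : Game => List.range (c * g.length)) :=
  PTime.range (pdp_mul c)

theorem pdp_old (c : ℕ) : PTime (fun g : Game => g.map fun e =>
    (e.1, e.2 ++ (List.range (c * g.length)).map fun x =>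
      x + (if e.1.1 = true then g.length + c * g.length else g.length))) := by
  refine PTime.map (l := fun g : Game => g) (g := fun (g : Game) (e : Vx) =>
    (e.1, e.2 ++ (List.range (c * g.length)).map fun x =>
      x + (if e.1.1 = true then g.length + c * g.length else g.length))) PTime.id ?_
  have hg : PTime (fun q : Game × Vx => q.1.length) := pdp_len.comp (PTime.fst PTime.id)
  have hc : PTime (fun q : Game × Vx => c * q.1.length) := (pdp_mul c).comp (PTime.fst PTime.id)
  have hr : PTime (fun q : Game × Vx => List.range (c * q.1.length)) := PTime.range hc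
  have hif : PTime (fun q : Game × Vx =>
      (bif q.2.1.1 then q.1.length + c * q.1.length else q.1.length)) :=
    PTime.cond (PTime.fst (PTime.fst (PTime.snd PTime.id))) (PTime.add hg hc) hg
  have hm : PTime (fun q : Game × Vx => (List.range (c * q.1.length)).map fun x =>
      x + (bif q.2.1.1 then q.1.length + c * q.1.length else q.1.length)) :=
    PTime.map (l := fun q : Game × Vx => List.range (c * q.1.length))
      (g := fun (q : Game × Vx) (x : ℕ) =>
        x + (bif q.2.1.1 then q.1.length + c * q.1.length else q.1.length)) hr
      (PTime.add (PTime.snd PTime.id) (hif.comp (PTime.fst PTime.id)))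
  refine (PTime.pair (PTime.fst (PTime.snd PTime.id))
    (PTime.append (PTime.snd (PTime.snd PTime.id)) hm)).congr fun q => ?_
  obtain ⟨g, ⟨⟨b, n⟩, l⟩⟩ := q
  cases b <;> rfl

theorem pdp_new (c : ℕ) (e : Bool × ℕ) (f : Game → ℕ) (hf : PTime f) :
    PTime (fun g : Game => (List.range (c * g.length)).map fun _ =>
      ((e, (List.range (c * g.length)).map fun x => x + f g) : Vx)) := by
  have hm : PTime (fun g : Game => (List.range (c * g.length)).map fun x => x + f g) :=
    PTime.map (l := fun g : Game => List.range (c * g.length))
      (g := fun (g : Game) (x : ℕ) => x + f g) (pdp_range c)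
      (PTime.add (PTime.snd PTime.id) (hf.comp (PTime.fst PTime.id)))
  exact PTime.map (l := fun g : Game => List.range (c * g.length))
    (g := fun (g : Game) (_ : ℕ) =>
      ((e, (List.range (c * g.length)).map fun x => x + f g) : Vx)) (pdp_range c)
    (PTime.pair (PTime.const e) (hm.comp (PTime.fst PTime.id)))

theorem pdp_thm : PDPStmt := by
  intro c
  refine (PTime.append (PTime.append (pdp_old c)
    (pdp_new c (true, 0) (fun g => g.length) pdp_len))
    (pdp_new c (false, 1) (fun g => g.length + c * g.length)
      (PTime.add pdp_len (pdp_mul c)))).congr fun g => ?_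
  rfl

end Pool.BHG
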